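import Pool.Agent.BEJ.Stmts

/-!
# Squad BEJ, row YLZ (helper52): behaviour of `yy` and `y1` at `0`.
-/

namespace Pool.Agent.BEJ.H52

open Set Filter Topology MeasureTheory
open Pool.Agent.BEJ

lemma im_bd {f : ℝ → ℂ} {g : ℝ → ℝ} (hf : IntegrableOn f (Ioi 0)) (hg : IntegrableOn g (Ioi 0))
    (h : ∀ t ∈ Ioi (0 : ℝ), |(f t).im| ≤ g t) :
    |(∫ t in Ioi (0 : ℝ), f t).im| ≤ ∫ t in Ioi (0 : ℝ), g t := by
  have h1 : (∫ t in Ioi (0 : ℝ), f t).im = ∫ t in Ioi (0 : ℝ), (f t).im := by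
    have := Complex.imCLM.integral_comp_comm (μ := volume.restrict (Ioi (0 : ℝ))) hf
    simpa using this.symm
  rw [h1, ← Real.norm_eq_abs]
  refine norm_integral_le_of_norm_le hg ?_
  exact (ae_restrict_mem measurableSet_Ioi).mono fun t ht => by
    rw [Real.norm_eq_abs]; exact h t ht

lemma nm_bd {f : ℝ → ℂ} {g : ℝ → ℝ} (hg : IntegrableOn g (Ioi 0))
    (h : ∀ t ∈ Ioi (0 : ℝ), ‖f t‖ ≤ g t) :
    ‖∫ t in Ioi (0 : ℝ), f t‖ ≤ ∫ t in Ioi (0 : ℝ), g t := by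
  refine norm_integral_le_of_norm_le hg ?_
  exact (ae_restrict_mem measurableSet_Ioi).mono fun t ht => h t ht

lemma exp_im (x : ℝ) (z : ℂ) :
    (Complex.exp (x * Complex.I) * z).im = Real.sin x * z.re + Real.cos x * z.im := by
  rw [Complex.mul_im, Complex.exp_ofReal_mul_I_re, Complex.exp_ofReal_mul_I_im]
  ring

lemma gau {x : ℝ} (hx : 0 < x) :
    IntegrableOn (fun t : ℝ => Real.exp (-x * t ^ 2)) (Ioi 0) :=
  (integrable_exp_neg_mul_sq hx).integrableOn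

lemma q0n (hE : ∀ t : ℝ, ‖EE t‖ ≤ 1) {x : ℝ} (hx : 0 < x) :
    ‖QQ 0 x‖ ≤ Real.sqrt (Real.pi / x) / 2 := by
  rw [← integral_gaussian_Ioi x]
  refine nm_bd (gau hx) fun t _ => ?_
  rw [norm_mul, Complex.norm_real, Real.norm_eq_abs]
  simp only [mul_zero, pow_zero, one_mul]
  rw [abs_of_pos (Real.exp_pos _)]
  exact mul_le_of_le_one_right (Real.exp_pos _).le (hE t)

lemma q1n (hE : ∀ t : ℝ, ‖EE t‖ ≤ 1) {x : ℝ} (hx : 0 < x) :
    ‖QQ 1 x‖ ≤ 2 / x * (Real.sqrt (Real.pi / (x / 2)) / 2) := by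
  rw [← integral_gaussian_Ioi (x / 2), ← integral_const_mul]
  refine nm_bd ((gau (half_pos hx)).const_mul _) fun t _ => ?_
  rw [norm_mul, Complex.norm_real, Real.norm_eq_abs]
  simp only [mul_one]
  rw [abs_of_nonneg (mul_nonneg (sq_nonneg t) (Real.exp_pos _).le)]
  refine (mul_le_of_le_one_right (mul_nonneg (sq_nonneg t) (Real.exp_pos _).le) (hE t)).trans ?_
  have h1 : Real.exp (-x * t ^ 2) = Real.exp (-(x / 2) * t ^ 2) * Real.exp (-(x / 2 * t ^ 2)) := by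
    rw [← Real.exp_add]; congr 1; ring
  have h2 : x / 2 * t ^ 2 * Real.exp (-(x / 2 * t ^ 2)) ≤ 1 := by
    have h3 := Real.add_one_le_exp (x / 2 * t ^ 2)
    rw [Real.exp_neg, mul_inv_le_iff₀ (Real.exp_pos _)]
    linarith
  have h4 : t ^ 2 * Real.exp (-(x / 2 * t ^ 2)) ≤ 2 / x := by
    rw [le_div_iff₀ hx]
    nlinarith [h2]
  rw [h1]
  calc t ^ 2 * (Real.exp (-(x / 2) * t ^ 2) * Real.exp (-(x / 2 * t ^ 2)))
      = (t ^ 2 * Real.exp (-(x / 2 * t ^ 2))) * Real.exp (-(x / 2) * t ^ 2) := by ring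
    _ ≤ 2 / x * Real.exp (-(x / 2) * t ^ 2) :=
        mul_le_mul_of_nonneg_right h4 (Real.exp_pos _).le

lemma q0i (hE : ∀ t : ℝ, 0 ≤ (EE t).im ∧ (EE t).im ≤ 3 / (1 + t ^ 2)) {x : ℝ} (hx : 0 < x)
    (hI : IntegrableOn (fun t : ℝ => ((t ^ (2 * 0) * Real.exp (-x * t ^ 2) : ℝ) : ℂ) * EE t)
      (Ioi 0)) :
    |(QQ 0 x).im| ≤ 3 * (Real.pi / 2) := by
  have h0 : ∫ t in Ioi (0 : ℝ), 3 * (1 + t ^ 2)⁻¹ = 3 * (Real.pi / 2) := by
    rw [integral_const_mul, integral_Ioi_inv_one_add_sq, Real.arctan_zero, sub_zero]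
  rw [← h0]
  refine im_bd hI (integrable_inv_one_add_sq.integrableOn.const_mul 3) fun t _ => ?_
  rw [Complex.im_ofReal_mul]
  simp only [mul_zero, pow_zero, one_mul]
  rw [abs_of_nonneg (mul_nonneg (Real.exp_pos _).le (hE t).1)]
  have h1 : Real.exp (-x * t ^ 2) ≤ 1 := by
    rw [Real.exp_le_one_iff]
    nlinarith [sq_nonneg t]
  calc Real.exp (-x * t ^ 2) * (EE t).im ≤ 1 * (EE t).im :=
        mul_le_mul_of_nonneg_right h1 (hE t).1
    _ ≤ 3 * (1 + t ^ 2)⁻¹ := by rw [one_mul, ← div_eq_mul_inv]; exact (hE t).2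

lemma q1i (hE : ∀ t : ℝ, 0 ≤ (EE t).im ∧ (EE t).im ≤ 3 / (1 + t ^ 2)) {x : ℝ} (hx : 0 < x)
    (hI : IntegrableOn (fun t : ℝ => ((t ^ (2 * 1) * Real.exp (-x * t ^ 2) : ℝ) : ℂ) * EE t)
      (Ioi 0)) :
    |(QQ 1 x).im| ≤ 3 * (Real.sqrt (Real.pi / x) / 2) := by
  rw [← integral_gaussian_Ioi x, ← integral_const_mul]
  refine im_bd hI ((gau hx).const_mul 3) fun t _ => ?_
  rw [Complex.im_ofReal_mul]
  simp only [mul_one]
  have h0 := mul_nonneg (sq_nonneg t) (Real.exp_pos (-x * t ^ 2)).le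
  rw [abs_of_nonneg (mul_nonneg h0 (hE t).1)]
  have h1 : t ^ 2 * (EE t).im ≤ 3 := by
    have h2 : (EE t).im * (1 + t ^ 2) ≤ 3 := by
      rw [← le_div_iff₀ (by positivity)]; exact (hE t).2
    nlinarith [(hE t).1]
  calc t ^ 2 * Real.exp (-x * t ^ 2) * (EE t).im
      = (t ^ 2 * (EE t).im) * Real.exp (-x * t ^ 2) := by ring
    _ ≤ 3 * Real.exp (-x * t ^ 2) := mul_le_mul_of_nonneg_right h1 (Real.exp_pos _).le

/-- Row YLZ. -/
theorem ylz (hE : EebStmt) (hQ : QdeStmt) : YlzStmt := by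
  obtain ⟨hE1, hE2, -, -, -⟩ := hE
  obtain ⟨hI, -, -⟩ := hQ
  have key : ∀ x : ℝ, 0 < x → x * Real.sqrt (Real.pi / x) = Real.sqrt Real.pi * Real.sqrt x := by
    intro x hx
    have hs : 0 < Real.sqrt x := Real.sqrt_pos.2 hx
    rw [Real.sqrt_div Real.pi_pos.le]
    have h := Real.mul_self_sqrt hx.le
    rw [mul_div_assoc', div_eq_iff hs.ne', mul_assoc, h]
    ring
  have key2 : ∀ x : ℝ, 0 < x → x * Real.sqrt (Real.pi / (x / 2)) =
      Real.sqrt (2 * Real.pi) * Real.sqrt x := by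
    intro x hx
    have hs : 0 < Real.sqrt x := Real.sqrt_pos.2 hx
    have h0 : Real.pi / (x / 2) = (2 * Real.pi) / x := by field_simp
    rw [h0, Real.sqrt_div (by positivity)]
    have h := Real.mul_self_sqrt hx.le
    rw [mul_div_assoc', div_eq_iff hs.ne', mul_assoc, h]
    ring
  refine ⟨⟨Real.sqrt Real.pi / 2 + 3 * (Real.pi / 2), fun x hx hx1 => ?_⟩,
    ⟨2 * Real.sqrt Real.pi + Real.sqrt (2 * Real.pi), fun x hx hx1 => ?_⟩⟩
  · have a1 := q0n hE1 hx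
    have a2 := q0i hE2 hx (hI 0 x hx)
    have k1 := key x hx
    have s1 : Real.sqrt x ≤ 1 := by
      rw [show (1 : ℝ) = Real.sqrt 1 by simp]; exact Real.sqrt_le_sqrt hx1
    have hr : |(QQ 0 x).re| ≤ ‖QQ 0 x‖ := Complex.abs_re_le_norm _
    have hsin : |Real.sin x| ≤ x := by
      rw [abs_of_nonneg (Real.sin_nonneg_of_nonneg_of_le_pi hx.le
        (by linarith [Real.pi_gt_three]))]
      exact Real.sin_le hx.le
    have hcos := Real.abs_cos_le_one x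
    unfold yy
    rw [exp_im]
    refine (abs_add_le _ _).trans ?_
    rw [abs_mul, abs_mul]
    have b1 : |Real.sin x| * |(QQ 0 x).re| ≤ x * (Real.sqrt (Real.pi / x) / 2) :=
      mul_le_mul hsin (hr.trans a1) (abs_nonneg _) hx.le
    have b2 : |Real.cos x| * |(QQ 0 x).im| ≤ 1 * (3 * (Real.pi / 2)) :=
      mul_le_mul hcos a2 (abs_nonneg _) zero_le_one
    have b3 : Real.sqrt Real.pi * Real.sqrt x ≤ Real.sqrt Real.pi * 1 :=
      mul_le_mul_of_nonneg_left s1 (Real.sqrt_nonneg _)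
    linarith
  · have a1 := q0n hE1 hx
    have a2 := q1i hE2 hx (hI 1 x hx)
    have a3 := q1n hE1 hx
    have k1 := key x hx
    have k2 := key2 x hx
    have hsin : |Real.sin x| ≤ x := by
      rw [abs_of_nonneg (Real.sin_nonneg_of_nonneg_of_le_pi hx.le
        (by linarith [Real.pi_gt_three]))]
      exact Real.sin_le hx.le
    have hcos := Real.abs_cos_le_one x
    have e1 : y1 x = (Complex.exp (x * Complex.I) * (Complex.I * QQ 0 x)).im -
        (Complex.exp (x * Complex.I) * QQ 1 x).im := by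
      unfold y1
      rw [mul_sub, Complex.sub_im]
    have c1 : |(Complex.exp (x * Complex.I) * (Complex.I * QQ 0 x)).im| ≤
        Real.sqrt (Real.pi / x) / 2 := by
      refine (Complex.abs_im_le_norm _).trans ?_
      rw [norm_mul, norm_mul, Complex.norm_exp_ofReal_mul_I, Complex.norm_I, one_mul, one_mul]
      exact a1
    have hr : |(QQ 1 x).re| ≤ ‖QQ 1 x‖ := Complex.abs_re_le_norm _
    have c2 : |(Complex.exp (x * Complex.I) * QQ 1 x).im| ≤
        x * (2 / x * (Real.sqrt (Real.pi / (x / 2)) / 2)) + 3 * (Real.sqrt (Real.pi / x) / 2) := by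
      rw [exp_im]
      refine (abs_add_le _ _).trans ?_
      rw [abs_mul, abs_mul]
      have b1 : |Real.sin x| * |(QQ 1 x).re| ≤
          x * (2 / x * (Real.sqrt (Real.pi / (x / 2)) / 2)) :=
        mul_le_mul hsin (hr.trans a3) (abs_nonneg _) hx.le
      have b2 : |Real.cos x| * |(QQ 1 x).im| ≤ 1 * (3 * (Real.sqrt (Real.pi / x) / 2)) :=
        mul_le_mul hcos a2 (abs_nonneg _) zero_le_one
      linarith
    have c3 : x * (2 / x * (Real.sqrt (Real.pi / (x / 2)) / 2)) =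
        Real.sqrt (Real.pi / (x / 2)) := by
      field_simp
    rw [c3] at c2
    rw [e1, abs_mul, abs_of_pos hx]
    have c4 : |(Complex.exp (x * Complex.I) * (Complex.I * QQ 0 x)).im -
        (Complex.exp (x * Complex.I) * QQ 1 x).im| ≤ Real.sqrt (Real.pi / x) / 2 +
        (Real.sqrt (Real.pi / (x / 2)) + 3 * (Real.sqrt (Real.pi / x) / 2)) :=
      (abs_sub _ _).trans (add_le_add c1 c2)
    refine (mul_le_mul_of_nonneg_left c4 hx.le).trans ?_
    nlinarith [k1, k2]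

end Pool.Agent.BEJ.H52
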